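import Pool.Agent.H88.AF.OmF
import Pool.Agent.H65.AF.WDefs

/-!
helper34 (project MP_28250c_AF, Part C): moves and masks.
-/

set_option autoImplicit false

namespace ACpFrege

variable {M q : ℕ}

/-- The row of a variable. -/
def rwv {M : ℕ} : Vr M → Fin M
  | .inl (u, _) => u
  | .inr (v, _) => v

theorem mvx_row (v t : Fin M) {i j : Fin M} (hi : i ≠ v) (hj : j ≠ v) : mvx q v t i j = 0 := by
  unfold mvx
  rw [if_neg fun h => hi h.1, if_neg fun h => hj h.2, sub_zero]

theorem mv_row' (ν : Vr M) {i j : Fin M} (hi : i ≠ rwv ν) (hj : j ≠ rwv ν) : mv q ν i j = 0 := by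
  rcases ν with ⟨u, v⟩ | ⟨v, t⟩
  · exact mvx_row u v hi hj
  · show (∑ u ∈ Finset.univ.filter (fun u : Fin M => u.val < t.val), mvx q v u) i j = 0
    rw [Finset.sum_apply, Finset.sum_apply]
    exact Finset.sum_eq_zero fun u _ => mvx_row v u hi hj

theorem mvx_neg (v t i j : Fin M) : mvx q v t j i = -mvx q v t i j := by
  unfold mvx
  rw [neg_sub]
  congr 1
  · exact if_congr and_comm rfl rfl
  · exact if_congr and_comm rfl rfl

theorem mv_neg (ν : Vr M) (i j : Fin M) : mv q ν j i = -mv q ν i j := by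
  rcases ν with ⟨u, v⟩ | ⟨v, t⟩
  · exact mvx_neg u v i j
  · show (∑ u ∈ Finset.univ.filter (fun u : Fin M => u.val < t.val), mvx q v u) j i =
      -(∑ u ∈ Finset.univ.filter (fun u : Fin M => u.val < t.val), mvx q v u) i j
    simp only [Finset.sum_apply]
    rw [← Finset.sum_neg_distrib]
    exact Finset.sum_congr rfl fun u _ => mvx_neg v u i j

theorem tot_nil : tot ([] : List (Vr M × ZMod q)) = 0 := rfl

theorem tot_cons (z : Vr M × ZMod q) (s : List (Vr M × ZMod q)) : tot (z :: s) = z.2 • mv q z.1 + tot s := by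
  unfold tot
  rw [List.map_cons, List.sum_cons]

theorem tot_T (s : List (Vr M × ZMod q)) :
    ∃ T : Finset (Fin M), T.card ≤ s.length ∧ ∀ u, u ∉ T → ∀ v, v ∉ T → tot s u v = 0 := by
  classical
  induction s with
  | nil => exact ⟨∅, le_rfl, fun u _ v _ => rfl⟩
  | cons z s ih =>
    obtain ⟨T, h1, h2⟩ := ih
    refine ⟨insert (rwv z.1) T, (Finset.card_insert_le _ _).trans (by simpa using h1), fun u hu v hv => ?_⟩
    rw [Finset.mem_insert, not_or] at hu hv
    rw [tot_cons]
    show z.2 • mv q z.1 u v + tot s u v = 0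
    rw [mv_row' z.1 hu.1 hv.1, h2 u hu.2 v hv.2, smul_zero, add_zero]

theorem tot_neg (s : List (Vr M × ZMod q)) (u v : Fin M) : tot s v u = -tot s u v := by
  induction s with
  | nil => simp [tot_nil]
  | cons z s ih =>
    rw [tot_cons]
    show z.2 • mv q z.1 v u + tot s v u = -(z.2 • mv q z.1 u v + tot s u v)
    rw [mv_neg z.1 u v, ih, smul_neg, neg_add]

theorem msk_herm [NeZero q] {a : Fin M → Fin M → ZMod q} {w : Matrix (Fin M) (Fin M) ℂ} (hw : w.IsHermitian)
    (ha : ∀ u v, a v u = -a u v) : (msk a w).IsHermitian := by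
  ext u v
  show star (w v u * om q (a v u)) = w u v * om q (a u v)
  rw [star_mul', ha u v, om_neg]
  have h1 : star (w v u) = w u v := hw.apply u v
  rw [h1]
  congr 1
  exact Complex.conj_conj _

theorem msk_congr {a : Fin M → Fin M → ZMod q} {w : Matrix (Fin M) (Fin M) ℂ} {s : List (Vr M × ZMod q)} {u v : Fin M}
    (h : tot s u v = 0) : msk (a + tot s) w u v = msk a w u v := by
  show w u v * om q (a u v + tot s u v) = w u v * om q (a u v)
  rw [h, add_zero]

theorem anti_neg (c : Fin M → Fin M → ZMod q) (u v : Fin M) : anti c v u = -anti c u v := by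
  unfold anti
  rcases lt_trichotomy u v with h | h | h
  · rw [if_neg (not_lt.2 h.le), if_pos h, if_pos h]
  · subst h
    simp
  · rw [if_pos h, if_neg (not_lt.2 h.le), if_pos h, neg_neg]

theorem Asy_neg {a : Fin M → Fin M → ZMod q} (ha : Asy a) (u v : Fin M) : a v u = -a u v := by
  obtain ⟨c, rfl⟩ := ha
  exact anti_neg c u v

end ACpFrege
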