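import Pool.Agent.H34.AF.Shf
import Pool.Agent.H88.AF.LayM
import Pool.Agent.H87.AF.WtDefs

/-!
helper34 (project MP_28250c_AF, Part C, W4): counting of the good exponent matrices.
-/

set_option autoImplicit false

namespace ACpFrege

theorem msk_add' {M q : ℕ} [NeZero q] (a c : Fin M → Fin M → ZMod q) (w : Matrix (Fin M) (Fin M) ℂ) :
    msk (a + c) w = msk c (msk a w) := by
  funext u v
  show w u v * om q (a u v + c u v) = w u v * om q (a u v) * om q (c u v)
  rw [om_add, mul_assoc]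

theorem msk_zero' {M q : ℕ} [NeZero q] (w : Matrix (Fin M) (Fin M) ℂ) : msk (0 : Fin M → Fin M → ZMod q) w = w := by
  funext u v
  show w u v * om q 0 = w u v
  rw [om_zero, mul_one]

theorem anti_zero' {M q : ℕ} : anti (0 : Fin M → Fin M → ZMod q) = 0 := by
  funext u v
  unfold anti
  simp

theorem GoodW_shift {M q : ℕ} [NeZero q] (R L : ℕ) (θ δ : ℝ) (f : Fin M → ℝ) (w : Matrix (Fin M) (Fin M) ℂ)
    (c : Fin M → Fin M → ZMod q) : GoodW q R L θ δ f w (anti c) ↔ GoodW q R L θ δ f (msk (anti c) w) 0 := by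
  unfold GoodW PhG PhC
  have h0 : msk (0 : Fin M → Fin M → ZMod q) (msk (anti c) w) = msk (anti c) w := msk_zero' _
  have h1 : ∀ s : List (Vr M × ZMod q), msk (0 + tot s) (msk (anti c) w) = msk (anti c + tot s) w := by
    intro s
    rw [zero_add, msk_add']
  simp only [h0, h1]
  constructor
  · exact fun h => ⟨⟨0, anti_zero'.symm⟩, h.2⟩
  · exact fun h => ⟨⟨c, rfl⟩, h.2⟩

/-- Independent signs: a property which has conditional probability at least `p` on an event. -/
theorem pr_prod_ge {Ω Ω' : Type} [Fintype Ω] [Fintype Ω'] [Nonempty Ω'] (A : Ω → Prop) (B : Ω → Ω' → Prop) {p : ℝ}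
    (h : ∀ x, A x → p ≤ pr (B x)) : p * pr A ≤ pr (fun z : Ω × Ω' => A z.1 ∧ B z.1 z.2) := by
  classical
  have h1 : pr (fun z : Ω × Ω' => A z.1 ∧ B z.1 z.2) = av fun x => if A x then pr (B x) else 0 := by
    unfold pr av
    rw [Fintype.sum_prod_type, Fintype.card_prod, Nat.cast_mul, mul_comm, ← div_div, Finset.sum_div]
    congr 1
    refine Finset.sum_congr rfl fun x _ => ?_
    by_cases hx : A x
    · simp [hx]
    · simp [hx]
  rw [h1]
  unfold pr
  rw [← av_mul]
  refine av_mono fun x => ?_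
  by_cases hx : A x
  · rw [if_pos hx, if_pos hx, mul_one]
    exact h x hx
  · rw [if_neg hx, if_neg hx, mul_zero]

theorem stW4 (hG : OutG) (h2 : StW2) : StW4 := by
  classical
  intro q hq _ δ hδ
  obtain ⟨M1, hM1⟩ := hG q hq
  obtain ⟨M2, hM2⟩ := h2 q hq δ hδ
  refine ⟨max (max M1 M2) 16, fun M hM R L hL hL' hR => ?_⟩
  have hm1 : M1 ≤ M := (le_max_left _ _).trans ((le_max_left _ _).trans hM)
  have hm2 : M2 ≤ M := (le_max_right _ _).trans ((le_max_left _ _).trans hM)
  have hm3 : 16 ≤ M := (le_max_right _ _).trans hM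
  obtain ⟨b, hb⟩ := hM1 M hm1 L hL hL'
  obtain ⟨θ, t1, t2, hpr⟩ := hb b le_rfl
  obtain ⟨o, f, hof⟩ := mask_count (b := b) (M := M) (q := q) fun H f => GoodW q R L θ δ (sg f) H 0
  refine ⟨θ, HH o, sg f, t1, t2, HH_herm o, ?_⟩
  have hGW : ∀ (o : Om b M q) (f : Fin M → Bool), GoodW q R L θ δ (sg f) (HH o) 0 ↔
      GoodH L θ (HH o) ∧ PhG q R L θ δ (sg f) (HH o) 0 := by
    intro o f
    unfold GoodW
    rw [msk_zero']
    exact ⟨fun h => h.2, fun h => ⟨⟨0, anti_zero'.symm⟩, h⟩⟩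
  have h3 : (1 / 8 : ℝ) * pr (fun o : Om b M q => GoodH L θ (HH o)) ≤
      pr (fun z : Om b M q × (Fin M → Bool) => GoodW q R L θ δ (sg z.2) (HH z.1) 0) := by
    have hB : ∀ o : Om b M q, GoodH L θ (HH o) → (1 / 8 : ℝ) ≤ pr (fun f : Fin M → Bool => PhG q R L θ δ (sg f) (HH o) 0) := by
      intro o ho
      have ho' : GoodH L θ (msk (0 : Fin M → Fin M → ZMod q) (HH o)) := by
        rw [msk_zero']
        exact ho
      exact hM2 M hm2 R L hL hL' hR θ t1 t2 (HH o) (HH_herm o) 0 ⟨0, anti_zero'.symm⟩ ho'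
    exact (pr_prod_ge _ _ hB).trans (pr_mono fun z hz => (hGW z.1 z.2).2 hz)
  have h4 : (Fintype.card (Fin M → Fin M → ZMod q) : ℝ) ≤ 16 * M *
      ((Finset.univ.filter fun c : Fin M → Fin M → ZMod q => GoodW q R L θ δ (sg f) (msk (anti c) (HH o)) 0).card : ℝ) := by
    have hMp : (0 : ℝ) < M := by exact_mod_cast (by omega : 0 < M)
    have hc : (0 : ℝ) ≤ Fintype.card (Fin M → Fin M → ZMod q) := Nat.cast_nonneg _
    have h5 : 1 / (16 * (M : ℝ)) ≤ pr (fun z : Om b M q × (Fin M → Bool) => GoodW q R L θ δ (sg z.2) (HH z.1) 0) := by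
      refine le_trans ?_ h3
      have : (1 : ℝ) / (16 * M) = 1 / 8 * (1 / (2 * M)) := by
        field_simp
        norm_num
      rw [this]
      linarith
    have h6 := (mul_le_mul_of_nonneg_right h5 hc).trans hof
    have hpos : (0 : ℝ) < 16 * M := by linarith
    rw [div_mul_eq_mul_div, one_mul, div_le_iff₀ hpos, mul_comm _ (16 * (M : ℝ))] at h6
    exact h6
  have h7 : (Finset.univ.filter fun c : Fin M → Fin M → ZMod q => GoodW q R L θ δ (sg f) (msk (anti c) (HH o)) 0) =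
      Finset.univ.filter fun c : Fin M → Fin M → ZMod q => GoodW q R L θ δ (sg f) (HH o) (anti c) := by
    ext c
    simp only [Finset.mem_filter, Finset.mem_univ, true_and]
    exact (GoodW_shift R L θ δ (sg f) (HH o) c).symm
  rw [h7] at h4
  have h8 : Fintype.card (Fin M → Fin M → ZMod q) ≤ 16 * M *
      (Finset.univ.filter fun c : Fin M → Fin M → ZMod q => GoodW q R L θ δ (sg f) (HH o) (anti c)).card := by
    exact_mod_cast h4
  refine h8.trans (Nat.mul_le_mul_right _ ?_)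
  rw [sq]
  exact Nat.mul_le_mul_right _ hm3

end ACpFrege
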