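import Pool.Agent.H65.AF.GDefs

/-!
helper34 (project MP_28250c_AF, Part B): the CNF `AS q M` (the sum of all Tseitin equations mod `q` on the complete graph with
`M` vertices and prefix sums) and abstract flat exponents `Coc`.
-/

set_option autoImplicit false

namespace ACpFrege

/-- The number of a `Z/q`-valued variable. -/
def ix {M : ℕ} : Vr M → ℕ
  | .inl (u, v) => u.val * M + v.val
  | .inr (v, t) => M * M + (v.val * (M + 1) + t.val)

/-- The Boolean variable `[ν = j]`. -/
def bx {M : ℕ} (q : ℕ) (ν : Vr M) (j : ℕ) : ℕ := ix ν * q + j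

/-- The number of Boolean variables. -/
def nvr (q M : ℕ) : ℕ := (M * M + M * (M + 1)) * q

/-- All `Z/q`-valued variables. -/
def vrs (M : ℕ) : List (Vr M) :=
  ((List.finRange M).flatMap fun u => (List.finRange M).map fun v => Sum.inl (u, v)) ++
    (List.finRange M).flatMap fun v => (List.finRange (M + 1)).map fun t => Sum.inr (v, t)

/-- Exactly one of the values `0, .., q - 1` is taken by `ν`. -/
def oneOf {M : ℕ} (q : ℕ) (ν : Vr M) : CNF :=
  ((List.range q).map fun j => (bx q ν j, true)) ::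
    (List.range q).flatMap fun i => ((List.range q).filter fun j => i ≠ j).map fun j =>
      [(bx q ν i, false), (bx q ν j, false)]

/-- The equation `ν = c`. -/
def eqc {M : ℕ} (q : ℕ) (ν : Vr M) (c : ℕ) : CNF := [[(bx q ν c, true)]]

/-- The equation `a + b = c` modulo `q`. -/
def addc {M : ℕ} (q : ℕ) (a b c : Vr M) : CNF :=
  (List.range q).flatMap fun i => (List.range q).flatMap fun j => ((List.range q).filter fun l => (i + j) % q ≠ l).map fun l =>
    [(bx q a i, false), (bx q b j, false), (bx q c l, false)]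

/-- The equations `x_uv + x_vu = y_(u,0)` and `y_(v,t) + x_vt = y_(v,t+1)`. -/
def trip (M : ℕ) : List (Vr M × Vr M × Vr M) :=
  ((List.finRange M).flatMap fun u => (List.finRange M).map fun v => (Sum.inl (u, v), Sum.inl (v, u), Sum.inr (u, 0))) ++
    (List.finRange M).flatMap fun v => (List.finRange M).map fun t =>
      (Sum.inr (v, t.castSucc), Sum.inl (v, t), Sum.inr (v, t.succ))

/-- The equations `x_vv = 0`, `y_(v,0) = 0`, `y_(0,M) = 1`, `y_(v,M) = 0` for `v ≠ 0`. -/
def csts (M : ℕ) : List (Vr M × ℕ) :=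
  ((List.finRange M).map fun v => (Sum.inl (v, v), 0)) ++ ((List.finRange M).map fun v => (Sum.inr (v, 0), 0)) ++
    (List.finRange M).map fun v => (Sum.inr (v, Fin.last M), if v.val = 0 then 1 else 0)

/-- The CNF `AS`: the Tseitin equations mod `q` of the complete graph on `M` vertices (charge 1 at the vertex 0), with prefix
sums. -/
def AS (q M : ℕ) : CNF :=
  (vrs M).flatMap (oneOf q) ++ (csts M).flatMap (fun z => eqc q z.1 z.2) ++ (trip M).flatMap fun z => addc q z.1 z.2.1 z.2.2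

/-- Abstract flat exponents of length `L`: moves `m`, levels `S`, exponents `t`. -/
structure Coc (q : ℕ) (V A : Type) [AddCommGroup A] [Module (ZMod q) A] (L : ℕ) where
  m : V → A
  S : ℕ → Set A
  t : V → ZMod q → A → ZMod q
  up : ∀ j, j < L → S j ⊆ S (j + 1)
  mov : ∀ (ν : V) (k : ZMod q) (a : A) (j : ℕ), j < L → a + k • m ν ∈ S j → a ∈ S (j + 1)
  add : ∀ (ν : V) (k k' : ZMod q) (a : A) (j : ℕ), j + 2 ≤ L → a + k • m ν + k' • m ν ∈ S j →
    t ν k a + t ν k' (a + k • m ν) = t ν (k + k') a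
  com : ∀ (ν ν' : V) (k k' : ZMod q) (a : A) (j : ℕ), j + 2 ≤ L → a + k • m ν + k' • m ν' ∈ S j →
    t ν k a + t ν' k' (a + k • m ν) = t ν' k' a + t ν k (a + k' • m ν')

variable {q : ℕ} {V A : Type} [AddCommGroup A] [Module (ZMod q) A] {L : ℕ}

/-- The relation `ν1 + ν2 = ν3`. -/
def Coc.Tri (s : Coc q V A L) (ν1 ν2 ν3 : V) : Prop :=
  s.m ν3 = s.m ν1 + s.m ν2 ∧ ∀ (k : ZMod q) (a : A) (j : ℕ), j + 2 ≤ L → a + k • s.m ν3 ∈ s.S j →
    s.t ν1 k a + s.t ν2 k (a + k • s.m ν1) = s.t ν3 k a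

/-- The relation `ν = c`. -/
def Coc.Cst (s : Coc q V A L) (ν : V) (c : ZMod q) : Prop :=
  s.m ν = 0 ∧ ∀ (k : ZMod q) (a : A) (j : ℕ), j + 1 ≤ L → a ∈ s.S j → s.t ν k a = k * c

end ACpFrege
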