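import Pool.Agent.H34.AF.BDefs

/-!
helper34 (project MP_28250c_AF, Part B): the operators of abstract flat exponents.
-/

set_option autoImplicit false
open Finset

namespace ACpFrege

variable {q : ℕ} {V A : Type} [AddCommGroup A] [Module (ZMod q) A] {L : ℕ} {K : Type} [Field K]

/-- Functions which vanish outside `S`. -/
def Vn (K : Type) [Field K] (S : Set A) : Submodule K (A → K) where
  carrier := {f | ∀ a, a ∉ S → f a = 0}
  add_mem' := by
    intro f g hf hg a ha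
    show f a + g a = 0
    rw [hf a ha, hg a ha, add_zero]
  zero_mem' := fun _ _ => rfl
  smul_mem' := by
    intro c f hf a ha
    show c * f a = 0
    rw [hf a ha, mul_zero]

omit [AddCommGroup A] in
theorem Vn_mono {S T : Set A} (h : S ⊆ T) : Vn K S ≤ Vn K T := fun _ hf a ha => hf a fun h' => ha (h h')

/-- The operator `U_(ν,k)`. -/
noncomputable def Coc.U (s : Coc q V A L) (ψ : AddChar (ZMod q) K) (ν : V) (k : ZMod q) : (A → K) →ₗ[K] (A → K) where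
  toFun f := fun a => ψ (s.t ν k a) * f (a + k • s.m ν)
  map_add' := by
    intro f g
    funext a
    simp only [Pi.add_apply, mul_add]
  map_smul' := by
    intro c f
    funext a
    simp only [Pi.smul_apply, smul_eq_mul, RingHom.id_apply]
    ring

variable [NeZero q]

/-- The projection `[ν = j]`. -/
noncomputable def Coc.XX (s : Coc q V A L) (ψ : AddChar (ZMod q) K) (ν : V) (j : ZMod q) : (A → K) →ₗ[K] (A → K) :=
  (q : K)⁻¹ • ∑ k : ZMod q, ψ (-(j * k)) • s.U ψ ν k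

variable (s : Coc q V A L) (ψ : AddChar (ZMod q) K)

omit [NeZero q] in
theorem U_apply (ν : V) (k : ZMod q) (f : A → K) (a : A) : s.U ψ ν k f a = ψ (s.t ν k a) * f (a + k • s.m ν) := rfl

theorem XX_apply (ν : V) (j : ZMod q) (f : A → K) :
    s.XX ψ ν j f = (q : K)⁻¹ • ∑ k : ZMod q, ψ (-(j * k)) • s.U ψ ν k f := by
  simp only [Coc.XX, LinearMap.smul_apply, LinearMap.sum_apply]

omit [NeZero q] in
theorem U_mem {j : ℕ} (hj : j < L) {f : A → K} (hf : f ∈ Vn K (s.S j)) (ν : V) (k : ZMod q) :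
    s.U ψ ν k f ∈ Vn K (s.S (j + 1)) := by
  intro a ha
  rw [U_apply, hf _ fun h => ha (s.mov ν k a j hj h), mul_zero]

theorem XX_mem {j : ℕ} (hj : j < L) {f : A → K} (hf : f ∈ Vn K (s.S j)) (ν : V) (i : ZMod q) :
    s.XX ψ ν i f ∈ Vn K (s.S (j + 1)) := by
  rw [XX_apply]
  exact Submodule.smul_mem _ _ (Submodule.sum_mem _ fun k _ => Submodule.smul_mem _ _ (U_mem s ψ hj hf ν k))

omit [NeZero q] in
theorem U_add {j : ℕ} (hj : j + 2 ≤ L) {f : A → K} (hf : f ∈ Vn K (s.S j)) (ν : V) (k k' : ZMod q) :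
    s.U ψ ν k (s.U ψ ν k' f) = s.U ψ ν (k + k') f := by
  funext a
  rw [U_apply, U_apply, U_apply, add_smul, ← add_assoc]
  by_cases h : a + k • s.m ν + k' • s.m ν ∈ s.S j
  · rw [← s.add ν k k' a j hj h, AddChar.map_add_eq_mul, mul_assoc]
  · rw [hf _ h, mul_zero, mul_zero, mul_zero]

omit [NeZero q] in
theorem U_com {j : ℕ} (hj : j + 2 ≤ L) {f : A → K} (hf : f ∈ Vn K (s.S j)) (ν ν' : V) (k k' : ZMod q) :
    s.U ψ ν k (s.U ψ ν' k' f) = s.U ψ ν' k' (s.U ψ ν k f) := by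
  funext a
  simp only [U_apply]
  by_cases h : a + k • s.m ν + k' • s.m ν' ∈ s.S j
  · rw [← mul_assoc, ← mul_assoc, ← AddChar.map_add_eq_mul, ← AddChar.map_add_eq_mul, s.com ν ν' k k' a j hj h,
      add_right_comm a (k • s.m ν) (k' • s.m ν')]
  · rw [hf _ h, add_right_comm a (k' • s.m ν') (k • s.m ν), hf _ h]
    simp only [mul_zero]

omit [NeZero q] in
theorem U_tri {j : ℕ} (hj : j + 2 ≤ L) {f : A → K} (hf : f ∈ Vn K (s.S j)) {ν1 ν2 ν3 : V} (h3 : s.Tri ν1 ν2 ν3)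
    (k : ZMod q) : s.U ψ ν1 k (s.U ψ ν2 k f) = s.U ψ ν3 k f := by
  funext a
  simp only [U_apply]
  have e : a + k • s.m ν1 + k • s.m ν2 = a + k • s.m ν3 := by rw [h3.1, smul_add, add_assoc]
  rw [e]
  by_cases h : a + k • s.m ν3 ∈ s.S j
  · rw [← h3.2 k a j hj h, AddChar.map_add_eq_mul, mul_assoc]
  · rw [hf _ h]
    simp only [mul_zero]

omit [NeZero q] in
theorem U_cst {j : ℕ} (hj : j + 1 ≤ L) {f : A → K} (hf : f ∈ Vn K (s.S j)) {ν : V} {c : ZMod q} (hc : s.Cst ν c)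
    (k : ZMod q) : s.U ψ ν k f = ψ (k * c) • f := by
  funext a
  rw [U_apply, hc.1, smul_zero, add_zero, Pi.smul_apply, smul_eq_mul]
  by_cases h : a ∈ s.S j
  · rw [hc.2 k a j hj h]
  · rw [hf _ h, mul_zero, mul_zero]

/-- The sum of a primitive character over a line. -/
theorem psi_sum {ψ : AddChar (ZMod q) K} (hψ : ψ.IsPrimitive) (b : ZMod q) :
    ∑ k : ZMod q, ψ (b * k) = if b = 0 then (q : K) else 0 := by
  classical
  have h := AddChar.sum_mulShift (R := ZMod q) b hψ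
  rw [ZMod.card] at h
  have h2 : ∑ k : ZMod q, ψ (b * k) = ∑ k : ZMod q, ψ (k * b) := Finset.sum_congr rfl fun k _ => by rw [mul_comm]
  rw [h2, h]
  split_ifs <;> simp

variable {ψ}

theorem XX_U {j : ℕ} (hj : j + 2 ≤ L) {f : A → K} (hf : f ∈ Vn K (s.S j)) (ν : V) (i k : ZMod q) :
    s.XX ψ ν i (s.U ψ ν k f) = ψ (i * k) • s.XX ψ ν i f := by
  rw [XX_apply, XX_apply, smul_comm (ψ (i * k)) ((q : K)⁻¹)]
  congr 1
  rw [Finset.smul_sum, ← Equiv.sum_comp (Equiv.addRight k) fun x => ψ (i * k) • ψ (-(i * x)) • s.U ψ ν x f]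
  refine Finset.sum_congr rfl fun x _ => ?_
  rw [Equiv.coe_addRight, U_add s ψ hj hf, smul_smul, ← AddChar.map_add_eq_mul]
  congr 2
  ring

theorem XX_U_com {j : ℕ} (hj : j + 2 ≤ L) {f : A → K} (hf : f ∈ Vn K (s.S j)) (ν ν' : V) (i k : ZMod q) :
    s.XX ψ ν i (s.U ψ ν' k f) = s.U ψ ν' k (s.XX ψ ν i f) := by
  rw [XX_apply, XX_apply, map_smul, map_sum]
  congr 1
  refine Finset.sum_congr rfl fun x _ => ?_
  rw [map_smul, U_com s ψ hj hf]

theorem XX_com {j : ℕ} (hj : j + 2 ≤ L) {f : A → K} (hf : f ∈ Vn K (s.S j)) (ν ν' : V) (i i' : ZMod q) :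
    s.XX ψ ν i (s.XX ψ ν' i' f) = s.XX ψ ν' i' (s.XX ψ ν i f) := by
  conv_lhs => rw [XX_apply s ψ ν' i' f]
  rw [XX_apply s ψ ν' i' (s.XX ψ ν i f), map_smul, map_sum]
  congr 1
  refine Finset.sum_congr rfl fun x _ => ?_
  rw [map_smul, XX_U_com s hj hf]

theorem XX_mul (hψ : ψ.IsPrimitive) (hq : (q : K) ≠ 0) {j : ℕ} (hj : j + 2 ≤ L) {f : A → K} (hf : f ∈ Vn K (s.S j))
    (ν : V) (i i' : ZMod q) : s.XX ψ ν i (s.XX ψ ν i' f) = if i = i' then s.XX ψ ν i f else 0 := by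
  conv_lhs => rw [XX_apply s ψ ν i' f]
  rw [map_smul, map_sum]
  have h1 : ∀ x ∈ (Finset.univ : Finset (ZMod q)), s.XX ψ ν i (ψ (-(i' * x)) • s.U ψ ν x f) =
      ψ ((i - i') * x) • s.XX ψ ν i f := by
    intro x _
    rw [map_smul, XX_U s hj hf, smul_smul, ← AddChar.map_add_eq_mul]
    congr 2
    ring
  rw [Finset.sum_congr rfl h1, ← Finset.sum_smul, psi_sum hψ, smul_smul]
  by_cases h : i = i'
  · rw [if_pos h, if_pos (sub_eq_zero.2 h), inv_mul_cancel₀ hq, one_smul]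
  · rw [if_neg h, if_neg (sub_ne_zero.2 h), mul_zero, zero_smul]

omit [NeZero q] in
theorem U_zero {j : ℕ} (hj : j + 2 ≤ L) {f : A → K} (hf : f ∈ Vn K (s.S j)) (ν : V) : s.U ψ ν 0 f = f := by
  funext a
  rw [U_apply, zero_smul, add_zero]
  by_cases h : a ∈ s.S j
  · have h1 := s.add ν 0 0 a j hj (by rwa [zero_smul, add_zero, add_zero])
    rw [zero_smul, add_zero, add_zero] at h1
    have h2 : s.t ν 0 a = 0 := by simpa using h1
    rw [h2, AddChar.map_zero_eq_one, one_mul]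
  · rw [hf _ h, mul_zero]

theorem XX_sum (hψ : ψ.IsPrimitive) (hq : (q : K) ≠ 0) {j : ℕ} (hj : j + 2 ≤ L) {f : A → K} (hf : f ∈ Vn K (s.S j))
    (ν : V) : ∑ i : ZMod q, s.XX ψ ν i f = f := by
  have h1 : ∀ i ∈ (Finset.univ : Finset (ZMod q)), s.XX ψ ν i f =
      (q : K)⁻¹ • ∑ k : ZMod q, ψ (-k * i) • s.U ψ ν k f := by
    intro i _
    rw [XX_apply]
    congr 1
    refine Finset.sum_congr rfl fun k _ => ?_
    congr 2
    ring
  rw [Finset.sum_congr rfl h1, ← Finset.smul_sum, Finset.sum_comm]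
  have h2 : ∀ k ∈ (Finset.univ : Finset (ZMod q)), ∑ i : ZMod q, ψ (-k * i) • s.U ψ ν k f =
      if k = 0 then (q : K) • f else 0 := by
    intro k _
    rw [← Finset.sum_smul, psi_sum hψ]
    by_cases h : k = 0
    · rw [if_pos h, h, neg_zero, if_pos rfl, U_zero s hj hf]
    · rw [if_neg h, if_neg (neg_ne_zero.2 h), zero_smul]
  rw [Finset.sum_congr rfl h2, Finset.sum_ite_eq' Finset.univ (0 : ZMod q) fun _ => (q : K) • f, if_pos (Finset.mem_univ _),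
    smul_smul, inv_mul_cancel₀ hq, one_smul]

theorem XX_tri (hψ : ψ.IsPrimitive) {j : ℕ} (hj : j + 3 ≤ L) {f : A → K} (hf : f ∈ Vn K (s.S j))
    {ν1 ν2 ν3 : V} (h3 : s.Tri ν1 ν2 ν3) {i i' l : ZMod q} (hi : i + i' ≠ l) :
    s.XX ψ ν1 i (s.XX ψ ν2 i' (s.XX ψ ν3 l f)) = 0 := by
  have hj2 : j + 2 ≤ L := by omega
  have h1 : ∀ k : ZMod q, s.XX ψ ν1 i (s.XX ψ ν2 i' (s.U ψ ν3 k f)) =
      ψ ((i + i') * k) • s.XX ψ ν1 i (s.XX ψ ν2 i' f) := by
    intro k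
    rw [← U_tri s ψ hj2 hf h3 k, XX_U_com s (by omega) (U_mem s ψ (by omega) hf ν2 k), XX_U s hj2 hf, map_smul,
      map_smul, XX_U s (j := j + 1) (by omega) (XX_mem s ψ (by omega) hf ν2 i'), smul_smul, ← AddChar.map_add_eq_mul]
    congr 2
    ring
  rw [XX_apply s ψ ν3 l f, map_smul, map_sum, map_smul, map_sum]
  have h2 : ∀ k ∈ (Finset.univ : Finset (ZMod q)), s.XX ψ ν1 i (s.XX ψ ν2 i' (ψ (-(l * k)) • s.U ψ ν3 k f)) =
      ψ ((i + i' - l) * k) • s.XX ψ ν1 i (s.XX ψ ν2 i' f) := by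
    intro k _
    rw [map_smul, map_smul, h1, smul_smul, ← AddChar.map_add_eq_mul]
    congr 2
    ring
  rw [Finset.sum_congr rfl h2, ← Finset.sum_smul, psi_sum hψ, if_neg (sub_ne_zero.2 hi), zero_smul, smul_zero]

theorem XX_cst (hq : (q : K) ≠ 0) {j : ℕ} (hj : j + 1 ≤ L) {f : A → K} (hf : f ∈ Vn K (s.S j)) {ν : V} {c : ZMod q}
    (hc : s.Cst ν c) : s.XX ψ ν c f = f := by
  rw [XX_apply]
  have h2 : ∀ k ∈ (Finset.univ : Finset (ZMod q)), ψ (-(c * k)) • s.U ψ ν k f = f := by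
    intro k _
    rw [U_cst s ψ hj hf hc, smul_smul, ← AddChar.map_add_eq_mul]
    have : -(c * k) + k * c = 0 := by ring
    rw [this, AddChar.map_zero_eq_one, one_smul]
  rw [Finset.sum_congr rfl h2, Finset.sum_const, Finset.card_univ, ZMod.card, ← Nat.cast_smul_eq_nsmul K, smul_smul,
    inv_mul_cancel₀ hq, one_smul]

end ACpFrege
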