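import Pool.Agent.H88.AF.OmF
import Pool.Agent.H88.AF.Av
import Pool.Agent.H65.AF.CDefs

/-!
helper34 (project MP_28250c_AF, Part C, W4): the law of `HH` is invariant under masks.
-/

set_option autoImplicit false

namespace ACpFrege

variable {b M q : ℕ} [NeZero q]

/-- `om (2q) (2 k) = om q k`. -/
theorem om_double (k : ZMod q) : om (2 * q) ((2 * k.val : ℕ) : ZMod (2 * q)) = om q k := by
  rw [om_natCast, om_eq_pow (n := q), pow_mul]
  congr 1
  rw [← Complex.exp_nat_mul]
  congr 1
  have hq : (q : ℂ) ≠ 0 := by exact_mod_cast NeZero.ne q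
  push_cast
  field_simp

/-- The shift of the sample space which realises the mask `anti c`. -/
def shA (c : Fin M → Fin M → ZMod q) : Om b M q ≃ Om b M q where
  toFun o := fun i u v => o i u v + if u < v then ((2 * (c u v).val : ℕ) : ZMod (2 * q)) else 0
  invFun o := fun i u v => o i u v - if u < v then ((2 * (c u v).val : ℕ) : ZMod (2 * q)) else 0
  left_inv := by
    intro o
    funext i u v
    simp
  right_inv := by
    intro o
    funext i u v
    simp

theorem lay_shA (c : Fin M → Fin M → ZMod q) (o : Om b M q) (i : Fin b) (u v : Fin M) :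
    lay (shA c o i) u v = lay (o i) u v * om q (anti c u v) := by
  unfold lay anti
  rcases lt_trichotomy u v with h | h | h
  · rw [if_pos h, if_pos h, if_pos h]
    show om (2 * q) (o i u v + if u < v then ((2 * (c u v).val : ℕ) : ZMod (2 * q)) else 0) = _
    rw [if_pos h, om_add, om_double]
  · subst h
    rw [if_neg (lt_irrefl _), if_neg (lt_irrefl _), if_neg (lt_irrefl _), if_neg (lt_irrefl _), if_neg (lt_irrefl _),
      if_neg (lt_irrefl _), om_zero, mul_one]
    show (-1 : ℂ) ^ (o i u u + if u < u then ((2 * (c u u).val : ℕ) : ZMod (2 * q)) else 0).val = _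
    rw [if_neg (lt_irrefl _), add_zero]
  · have h' : ¬ u < v := not_lt.2 h.le
    rw [if_neg h', if_pos h, if_neg h', if_pos h, if_neg h', if_pos h]
    show (starRingEnd ℂ) (om (2 * q) (o i v u + if v < u then ((2 * (c v u).val : ℕ) : ZMod (2 * q)) else 0)) = _
    rw [if_pos h, om_add, om_double, map_mul, om_neg]

theorem HH_shA (c : Fin M → Fin M → ZMod q) (o : Om b M q) : HH (shA c o) = msk (anti c) (HH o) := by
  funext u v
  unfold HH msk
  simp only [lay_shA]
  rw [← Finset.sum_mul, mul_assoc]

/-- Some value is at least the average. -/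
theorem exists_ge_av {Ω : Type} [Fintype Ω] [Nonempty Ω] (f : Ω → ℝ) : ∃ x, av f ≤ f x := by
  by_contra hc
  push Not at hc
  have h1 : ∑ x, f x < ∑ _x : Ω, av f := Finset.sum_lt_sum_of_nonempty Finset.univ_nonempty fun x _ => hc x
  rw [Finset.sum_const, Finset.card_univ, nsmul_eq_mul] at h1
  have hp : (0 : ℝ) < Fintype.card Ω := by exact_mod_cast Fintype.card_pos
  unfold av at h1
  rw [mul_div_cancel₀ _ hp.ne'] at h1
  exact lt_irrefl _ h1

open Classical in
/-- Counting: a property of the random matrix and of independent signs which has probability `pr` holds for a proportion at least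
`pr` of all masks of some matrix. -/
theorem mask_count (P : Matrix (Fin M) (Fin M) ℂ → (Fin M → Bool) → Prop) :
    ∃ (o : Om b M q) (f : Fin M → Bool),
      pr (fun z : Om b M q × (Fin M → Bool) => P (HH z.1) z.2) * Fintype.card (Fin M → Fin M → ZMod q) ≤
        ((Finset.univ.filter fun c : Fin M → Fin M → ZMod q => P (msk (anti c) (HH o)) f).card : ℝ) := by
  let g : Om b M q × (Fin M → Bool) → ℝ := fun z => ∑ c : Fin M → Fin M → ZMod q, if P (msk (anti c) (HH z.1)) z.2 then 1 else 0
  have h1 : av g = pr (fun z : Om b M q × (Fin M → Bool) => P (HH z.1) z.2) * Fintype.card (Fin M → Fin M → ZMod q) := by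
    show av (fun z : Om b M q × (Fin M → Bool) => ∑ c ∈ (Finset.univ : Finset (Fin M → Fin M → ZMod q)),
      if P (msk (anti c) (HH z.1)) z.2 then (1 : ℝ) else 0) = _
    rw [av_sum]
    have h2 : ∀ c ∈ (Finset.univ : Finset (Fin M → Fin M → ZMod q)),
        av (fun z : Om b M q × (Fin M → Bool) => if P (msk (anti c) (HH z.1)) z.2 then (1 : ℝ) else 0) =
          pr (fun z : Om b M q × (Fin M → Bool) => P (HH z.1) z.2) := by
      intro c _
      unfold pr
      rw [← av_comp ((shA c).prodCongr (Equiv.refl _)) fun z : Om b M q × (Fin M → Bool) =>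
        if P (HH z.1) z.2 then (1 : ℝ) else 0]
      refine av_congr fun z => ?_
      show _ = if P (HH (shA c z.1)) z.2 then (1 : ℝ) else 0
      rw [HH_shA]
    rw [Finset.sum_congr rfl h2, Finset.sum_const, Finset.card_univ, nsmul_eq_mul, mul_comm]
  obtain ⟨z, hz⟩ := exists_ge_av g
  refine ⟨z.1, z.2, ?_⟩
  rw [← h1]
  refine hz.trans (le_of_eq ?_)
  show ∑ c : Fin M → Fin M → ZMod q, (if P (msk (anti c) (HH z.1)) z.2 then (1 : ℝ) else 0) = _
  rw [Finset.sum_boole]

end ACpFrege
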